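import Pool.Agent.Q99.PC.Defs
import Pool.Agent.Q99.PC.ChainH

namespace Pool.Agent.Results.MP_d84bc5_an.PackingCoveringConstants

open Pool.Agent.Q99.PC

/-- `γ(ℓ₁ ⊕₂ ℝ) = γ*(ℓ₁ ⊕₂ ℝ) = 2/√3` (Q1), `γ(ℓ₁ ⊕₂ ℓ₂) = γ*(ℓ₁ ⊕₂ ℓ₂) = 2/√3` (Q2), the same for
`ℓ₁ ⊕₂ H` with any nonzero separable inner product space `H`, and the lower bound `2/√3` for
every `E ⊕₂ H`, `E ≠ 0` any real normed space. -/
theorem result :
    (gam X1 = 2 / Real.sqrt 3 ∧ gamLat X1 = 2 / Real.sqrt 3) ∧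
    (gam X2 = 2 / Real.sqrt 3 ∧ gamLat X2 = 2 / Real.sqrt 3) ∧
    (∀ (H : Type) [NormedAddCommGroup H] [InnerProductSpace ℝ H]
      [TopologicalSpace.SeparableSpace H] [Nontrivial H],
      gam (WithLp 2 (lp (fun _ : ℕ => ℝ) 1 × H)) = 2 / Real.sqrt 3 ∧
      gamLat (WithLp 2 (lp (fun _ : ℕ => ℝ) 1 × H)) = 2 / Real.sqrt 3) ∧
    (∀ (E H : Type) [NormedAddCommGroup E] [NormedSpace ℝ E] [Nontrivial E]
      [NormedAddCommGroup H] [InnerProductSpace ℝ H] [Nontrivial H]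
      (ρ : ℝ) (D : Set (WithLp 2 (E × H))), Sep2 D → RhoDense ρ D → 2 / Real.sqrt 3 ≤ ρ) := by
  have hne : Nontrivial (lp (fun _ : ℕ => ℝ) 2) := by
    refine ⟨⟨0, lp.single 2 0 1, ?_⟩⟩
    intro h
    have h1 : (0 : lp (fun _ : ℕ => ℝ) 2) 0 = (lp.single 2 0 (1 : ℝ) : lp (fun _ : ℕ => ℝ) 2) 0 := by
      rw [← h]
    rw [lp.single_apply_self] at h1
    simp at h1
  have hsep : TopologicalSpace.SeparableSpace (lp (fun _ : ℕ => ℝ) 2) :=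
    lp_separable 2 (by norm_num)
  refine ⟨main ℝ, main (lp (fun _ : ℕ => ℝ) 2), fun H _ _ _ _ => main H, ?_⟩
  intro E H _ _ _ _ _ _ ρ D h1 h2
  exact lower h1 h2

end Pool.Agent.Results.MP_d84bc5_an.PackingCoveringConstants
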